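import Pool.Agent.H37.CNL.Stmts

/-!
# Row `KEP` of the board `cnl`: the kernel of `t d/dt` on a cover is `L ^ p`
-/

set_option autoImplicit false

namespace Pool.CND

namespace KEPaux

open Finset Polynomial

variable {k L : Type} [Field k] [Field L] [Algebra k L]

/-- the sums `∑_(i < p) c_i ^ p t ^ i` -/
def Q (p : ℕ) (t x : L) : Prop := ∃ c : ℕ → L, x = ∑ i ∈ range p, c i ^ p * t ^ i

theorem q_zero {p : ℕ} (hp : p ≠ 0) (t : L) : Q p t 0 :=
  ⟨fun _ => 0, by simp [zero_pow hp]⟩

theorem q_add {p : ℕ} [Fact p.Prime] [CharP L p] {t x y : L} (hx : Q p t x) (hy : Q p t y) :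
    Q p t (x + y) := by
  obtain ⟨c, rfl⟩ := hx
  obtain ⟨d, rfl⟩ := hy
  refine ⟨fun i => c i + d i, ?_⟩
  rw [← sum_add_distrib]
  refine sum_congr rfl fun i _ => ?_
  rw [add_pow_char, add_mul]

theorem q_pmul {p : ℕ} {t x : L} (a : L) (hx : Q p t x) : Q p t (a ^ p * x) := by
  obtain ⟨c, rfl⟩ := hx
  refine ⟨fun i => a * c i, ?_⟩
  rw [mul_sum]
  refine sum_congr rfl fun i _ => ?_
  rw [mul_pow, mul_assoc]

theorem q_sum {p : ℕ} [Fact p.Prime] [CharP L p] {t : L} {ι : Type} (s : Finset ι) (f : ι → L)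
    (h : ∀ i ∈ s, Q p t (f i)) : Q p t (∑ i ∈ s, f i) := by
  classical
  induction s using Finset.induction_on with
  | empty => simpa using q_zero (Fact.out : p.Prime).ne_zero t
  | insert a s ha ih =>
    rw [sum_insert ha]
    exact q_add (h a (mem_insert_self a s)) (ih fun i hi => h i (mem_insert_of_mem hi))

theorem q_tpow {p : ℕ} (hp : p.Prime) (t : L) (n : ℕ) : Q p t (t ^ n) := by
  refine ⟨fun i => if i = n % p then t ^ (n / p) else 0, ?_⟩
  rw [sum_eq_single (n % p)]
  · beta_reduce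
    rw [if_pos rfl, ← pow_mul, ← pow_add, mul_comm, Nat.div_add_mod]
  · intro i _ hi
    beta_reduce
    rw [if_neg hi, zero_pow hp.ne_zero, zero_mul]
  · intro h
    exact absurd (mem_range.2 (Nat.mod_lt n hp.pos)) h

theorem q_poly [IsAlgClosed k] {p : ℕ} [hp : Fact p.Prime] [CharP L p] (t : L) (f : k[X]) :
    Q p t (aeval t f) := by
  rw [aeval_eq_sum_range]
  refine q_sum _ _ fun i _ => ?_
  obtain ⟨b, hb⟩ := IsAlgClosed.exists_pow_nat_eq (f.coeff i) hp.out.pos
  rw [Algebra.smul_def, ← hb, map_pow]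
  exact q_pmul _ (q_tpow hp.out t i)

theorem q_rat [IsAlgClosed k] {p : ℕ} [hp : Fact p.Prime] [CharP L p] (t x : L)
    (hx : x ∈ IntermediateField.adjoin k {t}) : Q p t x := by
  obtain ⟨r, s, rfl⟩ := (IntermediateField.mem_adjoin_simple_iff k x).1 hx
  by_cases hs : aeval t s = 0
  · rw [hs, div_zero]
    exact q_zero hp.out.ne_zero t
  · have h1 : aeval t r / aeval t s = ((aeval t s)⁻¹) ^ p * aeval t (r * s ^ (p - 1)) := by
      have h2 : (aeval t s) ^ p = aeval t s * (aeval t s) ^ (p - 1) := by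
        rw [← pow_succ', Nat.sub_add_cancel hp.out.pos]
      rw [map_mul, map_pow, inv_pow, h2]
      field_simp
    rw [h1]
    exact q_pmul _ (q_poly t _)

theorem q_all [IsAlgClosed k] {G : Type} [Group G] [Finite G] {ρ : G →* (L ≃ₐ[k] L)} {t : L}
    {p : ℕ} [hp : Fact p.Prime] [CharP L p] (hc : IsCover ρ t) (x : L) : Q p t x := by
  classical
  let H : Subgroup (L ≃ₐ[k] L) := ρ.range
  have : Finite H := by
    have h1 : (Set.range ρ).Finite := Set.finite_range ρ
    have h3 : (H : Set (L ≃ₐ[k] L)) = Set.range ρ := MonoidHom.coe_range ρ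
    have : (H : Set (L ≃ₐ[k] L)).Finite := by rw [h3]; exact h1
    exact this.to_subtype
  have hF : ∀ r : FixedPoints.subfield H L, Q p t (r : L) := by
    intro r
    refine q_rat (k := k) t _ ((hc.fixed _).1 fun g => ?_)
    exact r.2 ⟨ρ g, ⟨g, rfl⟩⟩
  have : CharP (FixedPoints.subfield H L) p :=
    (RingHom.charP_iff (algebraMap (FixedPoints.subfield H L) L)
      (algebraMap (FixedPoints.subfield H L) L).injective p).2 inferInstance
  have : ExpChar (FixedPoints.subfield H L) p := ExpChar.prime hp.out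
  have h1 := IntermediateField.adjoin_simple_eq_adjoin_pow_expChar_of_isSeparable'
    (FixedPoints.subfield H L) L x p
  have h2 : x ∈ IntermediateField.adjoin (FixedPoints.subfield H L) {x ^ p} := by
    rw [← h1]
    exact IntermediateField.mem_adjoin_simple_self _ x
  have h3 : IsIntegral (FixedPoints.subfield H L) (x ^ p) :=
    Algebra.IsIntegral.isIntegral (x ^ p)
  rw [← IntermediateField.mem_toSubalgebra,
    IntermediateField.adjoin_simple_toSubalgebra_of_isAlgebraic h3.isAlgebraic,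
    Algebra.adjoin_singleton_eq_range_aeval] at h2
  obtain ⟨f, hf⟩ := h2
  rw [← hf]
  change Q p t (aeval (x ^ p) f)
  rw [aeval_eq_sum_range]
  refine q_sum _ _ fun i _ => ?_
  rw [Algebra.smul_def, ← pow_mul, mul_comm p i, pow_mul, mul_comm]
  exact q_pmul _ (hF (f.coeff i))

variable {t : L} {Δ : L → L}

theorem dzero (h : DD k t Δ) : Δ 0 = 0 := by
  have h1 := h.add 0 0
  rw [add_zero] at h1
  linear_combination -h1

theorem dpow (h : DD k t Δ) (x : L) (n : ℕ) : Δ (x ^ n) * x = n * x ^ n * Δ x := by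
  induction n with
  | zero =>
    have h1 := h.con 1
    rw [map_one] at h1
    simp [h1]
  | succ n ih =>
    rw [pow_succ, h.mul]
    push_cast
    linear_combination x * ih

theorem dsum (h : DD k t Δ) {ι : Type} (s : Finset ι) (f : ι → L) :
    Δ (∑ i ∈ s, f i) = ∑ i ∈ s, Δ (f i) := by
  classical
  induction s using Finset.induction_on with
  | empty => simp [dzero h]
  | insert a s ha ih => rw [sum_insert ha, sum_insert ha, h.add, ih]

theorem dcp (h : DD k t Δ) (p : ℕ) [hp : Fact p.Prime] [CharP L p] (c : L) :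
    Δ (c ^ p) = 0 := by
  by_cases hc : c = 0
  · rw [hc, zero_pow hp.out.ne_zero, dzero h]
  · have h1 := dpow h c p
    rw [CharP.cast_eq_zero, zero_mul, zero_mul] at h1
    exact (mul_eq_zero.1 h1).resolve_right hc

theorem dtp (h : DD k t Δ) (ht : t ≠ 0) (n : ℕ) : Δ (t ^ n) = n * t ^ n := by
  have h1 := dpow h t n
  rw [h.self] at h1
  exact mul_right_cancel₀ ht h1

/-- the iterates of `Δ` on `∑ c_i ^ p t ^ i` -/
theorem dit (h : DD k t Δ) (ht : t ≠ 0) (p : ℕ) [hp : Fact p.Prime] [CharP L p] (c : ℕ → L)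
    (m : ℕ) : Δ^[m] (∑ i ∈ range p, c i ^ p * t ^ i) =
      ∑ i ∈ range p, (i : L) ^ m * (c i ^ p * t ^ i) := by
  induction m with
  | zero => simp
  | succ m ih =>
    rw [Function.iterate_succ_apply', ih, dsum h]
    refine sum_congr rfl fun i _ => ?_
    have h0 : ∀ j : ℕ, Δ ((i : L) ^ j) = 0 := by
      intro j
      have h1 := h.con (((i : ℕ) : k) ^ j)
      rwa [map_pow, map_natCast] at h1
    rw [h.mul, h0, h.mul, dcp h p, dtp h ht]
    ring

end KEPaux

open Finset KEPaux in
theorem kep_thm (_h1 : S_DRU) : S_KEP := by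
  intro p k L G _ _ _ _ _ _ ρ t Δ hp hch hc hD x hx
  have : Fact p.Prime := ⟨hp⟩
  have : CharP L p := charP_of_injective_algebraMap (algebraMap k L).injective p
  have ht : t ≠ 0 := by
    rintro rfl
    exact hc.trans isAlgebraic_zero
  obtain ⟨c, rfl⟩ := q_all (p := p) hc x
  refine ⟨c 0, ?_⟩
  have hz : ∀ m : ℕ, Δ^[m] 0 = 0 := by
    intro m
    induction m with
    | zero => rfl
    | succ m ih => rw [Function.iterate_succ_apply, dzero hD, ih]
  have h1 : Δ^[p - 1] (∑ i ∈ range p, c i ^ p * t ^ i) = 0 := by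
    have h2 : p - 1 = (p - 2) + 1 := by have := hp.two_le; omega
    rw [h2, Function.iterate_succ_apply, hx, hz]
  rw [dit hD ht] at h1
  have h3 : ∑ i ∈ range p, (i : L) ^ (p - 1) * (c i ^ p * t ^ i) =
      ∑ i ∈ range p, c i ^ p * t ^ i - c 0 ^ p := by
    obtain ⟨q, rfl⟩ : ∃ q, p = q + 1 := ⟨p - 1, by have := hp.pos; omega⟩
    rw [sum_range_succ', sum_range_succ']
    have hq : q ≠ 0 := by have := hp.two_le; omega
    simp only [Nat.add_sub_cancel, Nat.cast_zero, zero_pow hq, zero_mul, add_zero, pow_zero,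
      mul_one, add_sub_cancel_right]
    refine sum_congr rfl fun i hi => ?_
    have h4 : (((i + 1 : ℕ) : ZMod (q + 1))) ≠ 0 := by
      intro h5
      rw [ZMod.natCast_eq_zero_iff] at h5
      have := Nat.le_of_dvd (Nat.succ_pos i) h5
      have := mem_range.1 hi
      omega
    have h6 := ZMod.pow_card_sub_one_eq_one h4
    have h7 := congrArg (ZMod.castHom (dvd_refl (q + 1)) L) h6
    rw [map_pow, map_natCast, map_one, Nat.add_sub_cancel] at h7
    rw [h7, one_mul]
  rw [h3] at h1
  exact sub_eq_zero.1 h1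

end Pool.CND
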